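import Pool.Agent.H93.RobinI

/-!
# The Robin spectral gap of a convex domain of `ℝ³` need not increase with the Robin parameter

The eigenvalues are treated both by min-max over `C¹` functions and literally, as the eigenvalues
of the form on `H¹(Ω)` (a complete orthonormal system of weak eigenfunctions). The surface measure
may be any positive multiple of the `2`-dimensional Hausdorff measure.
-/

set_option autoImplicit false

namespace Pool.Agent.Results.MP_223851_an.GapDecreases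

open MeasureTheory Set Filter Topology
open scoped NNReal ENNReal RealInnerProductSpace

/-- Euclidean space. -/
abbrev E (n : ℕ) := EuclideanSpace ℝ (Fin n)

/-- The Rayleigh quotient of a `C¹` function, with surface measure `σ` on the boundary. -/
noncomputable def rayleigh {n : ℕ} (Ω : Set (E n)) (σ : Measure (E n)) (α : ℝ) (v : E n → ℝ) : ℝ :=
  ((∫ x in Ω, ‖fderiv ℝ v x‖ ^ 2) + α * ∫ x in frontier Ω, v x ^ 2 ∂σ) / (∫ x in Ω, v x ^ 2)

/-- `V` is a `k`-dimensional space of `C¹` functions on `Ω`. -/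
def IsTest {n : ℕ} (Ω : Set (E n)) (k : ℕ) (V : Submodule ℝ (E n → ℝ)) : Prop :=
  Module.finrank ℝ V = k ∧ (∀ v ∈ V, ContDiff ℝ 1 v) ∧ ∀ v ∈ V, v ≠ 0 → 0 < ∫ x in Ω, v x ^ 2

/-- The `k`-th Robin eigenvalue `λ_k(Ω, α)` (`k = 1, 2, …`) by the min-max formula over
`k`-dimensional spaces of `C¹` functions. -/
noncomputable def minmaxEig {n : ℕ} (Ω : Set (E n)) (σ : Measure (E n)) (α : ℝ) (k : ℕ) : ℝ :=
  sInf {r : ℝ | ∃ V, IsTest Ω k V ∧ r = sSup {q : ℝ | ∃ v ∈ V, v ≠ 0 ∧ q = rayleigh Ω σ α v}}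

/-- `u` is in `H¹(Ω)`, with gradient `g` and trace `τ` on `∂Ω`: all three are square integrable and
there are `C¹` functions `v k` with `v k → u` and `∇(v k) → g` in `L²(Ω)`, and `v k → τ` in
`L²(∂Ω, σ)`. (For a bounded convex domain this is the usual `H¹(Ω)`, with the usual trace.) -/
def IsH1 {n : ℕ} (Ω : Set (E n)) (σ : Measure (E n)) (u : E n → ℝ) (g : E n → E n)
    (τ : E n → ℝ) : Prop :=
  MemLp u 2 (volume.restrict Ω) ∧ MemLp g 2 (volume.restrict Ω) ∧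
    MemLp τ 2 (σ.restrict (frontier Ω)) ∧ ∃ v : ℕ → E n → ℝ, (∀ k, ContDiff ℝ 1 (v k)) ∧
    Tendsto (fun k => ∫ x in Ω, (v k x - u x) ^ 2) atTop (𝓝 0) ∧
    Tendsto (fun k => ∫ x in Ω, ‖gradient (v k) x - g x‖ ^ 2) atTop (𝓝 0) ∧
    Tendsto (fun k => ∫ x in frontier Ω, (v k x - τ x) ^ 2 ∂σ) atTop (𝓝 0)

/-- `u` (with gradient `g` and trace `τ`) is a weak solution in `H¹(Ω)` of the Robin eigenvalue
problem with parameter `α` and eigenvalue `μ`. -/
def IsWeakEigen {n : ℕ} (Ω : Set (E n)) (σ : Measure (E n)) (α μ : ℝ) (u : E n → ℝ)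
    (g : E n → E n) (τ : E n → ℝ) : Prop :=
  IsH1 Ω σ u g τ ∧ ∀ (v : E n → ℝ) (h : E n → E n) (ρ : E n → ℝ), IsH1 Ω σ v h ρ →
    (∫ x in Ω, ⟪g x, h x⟫) + α * ∫ x in frontier Ω, τ x * ρ x ∂σ = μ * ∫ x in Ω, u x * v x

/-- `u` is a complete orthonormal system of `L²(Ω)`. -/
def IsONB {n : ℕ} (Ω : Set (E n)) (u : ℕ → E n → ℝ) : Prop :=
  (∀ j k, ∫ x in Ω, u j x * u k x = if j = k then 1 else 0) ∧
    ∀ f : E n → ℝ, MemLp f 2 (volume.restrict Ω) → (∀ k, ∫ x in Ω, f x * u k x = 0) →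
      ∀ᵐ x ∂(volume.restrict Ω), f x = 0

/-- `lam 0 ≤ lam 1 ≤ …` are the eigenvalues, counted with multiplicity, of the self-adjoint
operator associated with the form `∫_Ω |∇u|² + α ∫_{∂Ω} u² dσ` on `H¹(Ω)`: there is a complete
orthonormal system of `L²(Ω)` of weak eigenfunctions with these eigenvalues. -/
def IsRobinSpectrum {n : ℕ} (Ω : Set (E n)) (σ : Measure (E n)) (α : ℝ) (lam : ℕ → ℝ) : Prop :=
  Monotone lam ∧ ∃ (u : ℕ → E n → ℝ) (g : ℕ → E n → E n) (τ : ℕ → E n → ℝ),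
    IsONB Ω u ∧ ∀ k, IsWeakEigen Ω σ α (lam k) (u k) (g k) (τ k)

/-- `l₁, l₂` are the first two Robin eigenvalues, in one of the two usual definitions: by min-max
over `C¹` functions, or as the first two eigenvalues of the form on `H¹(Ω)`. -/
def FirstTwo {n : ℕ} (Ω : Set (E n)) (σ : Measure (E n)) (α l₁ l₂ : ℝ) : Prop :=
  (l₁ = minmaxEig Ω σ α 1 ∧ l₂ = minmaxEig Ω σ α 2) ∨
    ∃ lam : ℕ → ℝ, IsRobinSpectrum Ω σ α lam ∧ l₁ = lam 0 ∧ l₂ = lam 1

/-! ### the spaces used in the proof -/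

/-- Triples `(u, ∇u, trace of u)` of `L²` functions on `Ω`, `Ω` and `∂Ω`. -/
abbrev Trip {n : ℕ} (Ω : Set (E n)) (σ : Measure (E n)) : Type :=
  Lp ℝ 2 (volume.restrict Ω) × Lp (E n) 2 (volume.restrict Ω) × Lp ℝ 2 (σ.restrict (frontier Ω))

/-- `t` is the triple of `v, h, ρ` -/
def IsTrip {n : ℕ} {Ω : Set (E n)} {σ : Measure (E n)} (t : Trip Ω σ) (v : E n → ℝ)
    (h : E n → E n) (ρ : E n → ℝ) : Prop :=
  (t.1 : E n → ℝ) =ᵐ[volume.restrict Ω] v ∧ (t.2.1 : E n → E n) =ᵐ[volume.restrict Ω] h ∧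
    (t.2.2 : E n → ℝ) =ᵐ[σ.restrict (frontier Ω)] ρ

/-- The triple of a `C¹` function. -/
def IsSmooth {n : ℕ} {Ω : Set (E n)} {σ : Measure (E n)} (w : Trip Ω σ) : Prop :=
  ∃ v : E n → ℝ, ContDiff ℝ 1 v ∧ IsTrip w v (gradient v) v

/-- the closure of the `C¹` functions. -/
def H1 {n : ℕ} (Ω : Set (E n)) (σ : Measure (E n)) : Set (Trip Ω σ) := closure {w | IsSmooth w}

/-- the triples of the elements of `H¹` -/
def SS1 {n : ℕ} (Ω : Set (E n)) (σ : Measure (E n)) : Set (Trip Ω σ) :=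
  {t | ∃ v h ρ, IsH1 Ω σ v h ρ ∧ IsTrip t v h ρ}

/-- The form `∫_Ω ∇u·∇w + α ∫_{∂Ω} u w dσ`. -/
noncomputable def bf {n : ℕ} {Ω : Set (E n)} {σ : Measure (E n)} (α : ℝ) (x y : Trip Ω σ) : ℝ :=
  ⟪x.2.1, y.2.1⟫ + α * ⟪x.2.2, y.2.2⟫

/-! ### the abstract part -/

section Abstract

variable {n : ℕ} {Ω : Set (E n)} {σ : Measure (E n)}

theorem bf_comm (α : ℝ) (x y : Trip Ω σ) : bf α x y = bf α y x := by
  unfold bf
  rw [real_inner_comm, real_inner_comm x.2.2]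

theorem bf_self_nonneg {α : ℝ} (hα : 0 ≤ α) (x : Trip Ω σ) : 0 ≤ bf α x x := by
  unfold bf
  rw [real_inner_self_eq_norm_sq, real_inner_self_eq_norm_sq]
  positivity

theorem bf_sub_smul (α : ℝ) (x y z : Trip Ω σ) (c : ℝ) :
    bf α z (x - c • y) = bf α z x - c * bf α z y := by
  unfold bf
  simp only [Prod.snd_sub, Prod.fst_sub, Prod.smul_snd, Prod.smul_fst, inner_sub_right,
    inner_smul_right]
  ring

theorem bf_sub_smul_self (α : ℝ) (x y : Trip Ω σ) (c : ℝ) :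
    bf α (x - c • y) (x - c • y) = bf α x x - 2 * c * bf α y x + c ^ 2 * bf α y y := by
  rw [bf_sub_smul, bf_comm α _ x, bf_comm α _ y, bf_sub_smul, bf_sub_smul, bf_comm α x y]
  ring

theorem bf_comb (α : ℝ) (x y : Trip Ω σ) (a b : ℝ) :
    bf α (a • x + b • y) (a • x + b • y)
      = a ^ 2 * bf α x x + 2 * a * b * bf α x y + b ^ 2 * bf α y y := by
  unfold bf
  simp only [Prod.snd_add, Prod.fst_add, Prod.smul_snd, Prod.smul_fst, inner_add_right,
    inner_add_left, inner_smul_right, real_inner_smul_left]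
  rw [real_inner_comm x.2.1 y.2.1, real_inner_comm x.2.2 y.2.2]
  ring

theorem eig_lower {α : ℝ} (hα : 0 ≤ α) {lam : ℕ → ℝ} (hm : Monotone lam) {u : ℕ → Trip Ω σ}
    (hu : ∀ k, u k ∈ SS1 Ω σ) (ho : Orthonormal ℝ (fun k => (u k).1))
    (hd : (⊤ ≤ (Submodule.span ℝ (range fun k => (u k).1)).topologicalClosure))
    (he : ∀ k, ∀ w ∈ SS1 Ω σ, bf α (u k) w = lam k * ⟪(u k).1, w.1⟫)
    {w : Trip Ω σ} (hw : w ∈ SS1 Ω σ) (m : ℕ) (h0 : ∀ k < m, ⟪(u k).1, w.1⟫ = 0) :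
    lam m * ‖w.1‖ ^ 2 ≤ bf α w w := by
  have huu : ∀ j k, bf α (u j) (u k) = if j = k then lam j else 0 := by
    intro j k
    rw [he j (u k) (hu k)]
    have := orthonormal_iff_ite.1 ho j k
    rw [this]
    split_ifs <;> simp
  set c : ℕ → ℝ := fun k => ⟪(u k).1, w.1⟫ with hc
  have key : ∀ N : ℕ, ∃ z : Trip Ω σ, bf α z z = bf α w w - ∑ k ∈ Finset.range N, lam k * c k ^ 2 ∧
      ∀ j, N ≤ j → bf α (u j) z = lam j * c j := by
    intro N
    induction N with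
    | zero => exact ⟨w, by simp, fun j _ => he j w hw⟩
    | succ N ih =>
      obtain ⟨z, hz, hzj⟩ := ih
      refine ⟨z - c N • u N, ?_, ?_⟩
      · rw [bf_sub_smul_self, hz, hzj N le_rfl, huu, if_pos rfl, Finset.sum_range_succ]
        ring
      · intro j hj
        rw [bf_sub_smul, hzj j (by omega), huu, if_neg (by omega)]
        ring
  have hsum : ∀ N : ℕ, lam m * ∑ k ∈ Finset.range N, c k ^ 2 ≤ bf α w w := by
    intro N
    obtain ⟨z, hz, _⟩ := key N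
    have h1 := bf_self_nonneg hα z
    rw [hz] at h1
    have h2 : lam m * ∑ k ∈ Finset.range N, c k ^ 2 ≤ ∑ k ∈ Finset.range N, lam k * c k ^ 2 := by
      rw [Finset.mul_sum]
      apply Finset.sum_le_sum
      intro k _
      by_cases hk : k < m
      · have : c k = 0 := h0 k hk
        rw [this]; simp
      · exact mul_le_mul_of_nonneg_right (hm (by omega)) (sq_nonneg _)
    linarith
  have hpars : Tendsto (fun N : ℕ => ∑ k ∈ Finset.range N, c k ^ 2) atTop (𝓝 (‖w.1‖ ^ 2)) := by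
    have hb := (HilbertBasis.mk ho hd).hasSum_inner_mul_inner w.1 w.1
    rw [real_inner_self_eq_norm_sq] at hb
    have := hb.tendsto_sum_nat
    refine this.congr fun N => Finset.sum_congr rfl fun k _ => ?_
    rw [HilbertBasis.coe_mk, real_inner_comm]
    simp only [hc]
    rw [real_inner_comm]
    ring
  exact le_of_tendsto' (hpars.const_mul (lam m)) hsum

end Abstract

/-! ### the concrete domain -/

section Concrete

open Pool.Agent.H93.Robin

/-- the wedge shaped plate of the frozen proof -/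
noncomputable abbrev W : Set (E 3) := Om (1 / 1000) (1 / 10 ^ 5) (1 / 10 ^ 7) (1 / 10 ^ 22)

theorem hA : Adm (1 / 1000) (1 / 10 ^ 5) (1 / 10 ^ 7) (1 / 10 ^ 22) := by
  constructor <;> norm_num

/-- a multiple of the Hausdorff measure -/
noncomputable abbrev sg (s : ℝ≥0) : Measure (E 3) := s • (μH[(2:ℝ)] : Measure (E 3))

noncomputable abbrev N' (v : E 3 → ℝ) : ℝ := Nf (1 / 1000) (1 / 10 ^ 5) (1 / 10 ^ 7) (1 / 10 ^ 22) v
noncomputable abbrev G' (v : E 3 → ℝ) : ℝ := Gf (1 / 1000) (1 / 10 ^ 5) (1 / 10 ^ 7) (1 / 10 ^ 22) v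
noncomputable abbrev B' (v : E 3 → ℝ) : ℝ := Bf (1 / 1000) (1 / 10 ^ 5) (1 / 10 ^ 7) (1 / 10 ^ 22) v

/-- `t` is the triple of `v` -/
def Rep {s : ℝ≥0} (t : Trip W (sg s)) (v : E 3 → ℝ) : Prop := IsTrip t v (gradient v) v

theorem restrict_sg (s : ℝ≥0) : (sg s).restrict (frontier W)
    = s • ((μH[(2:ℝ)] : Measure (E 3)).restrict (frontier W)) := Measure.restrict_smul _ _ _

theorem int_sg (s : ℝ≥0) (f : E 3 → ℝ) : ∫ x in frontier W, f x ∂(sg s)
    = s * ∫ x in frontier W, f x ∂(μH[(2:ℝ)] : Measure (E 3)) := by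
  rw [restrict_sg, integral_smul_nnreal_measure]
  rfl

theorem norm_sq_real {μ : Measure (E 3)} (f : Lp ℝ 2 μ) {v : E 3 → ℝ}
    (h : (f : E 3 → ℝ) =ᵐ[μ] v) : ‖f‖ ^ 2 = ∫ x, v x ^ 2 ∂μ := by
  rw [← real_inner_self_eq_norm_sq, L2.inner_def]
  apply integral_congr_ae
  filter_upwards [h] with x hx
  rw [hx, real_inner_self_eq_norm_sq, Real.norm_eq_abs, sq_abs]

theorem Rep.N {s : ℝ≥0} {t : Trip W (sg s)} {v : E 3 → ℝ} (h : Rep t v) : ‖t.1‖ ^ 2 = N' v :=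
  norm_sq_real _ h.1

theorem Rep.B {s : ℝ≥0} {t : Trip W (sg s)} {v : E 3 → ℝ} (h : Rep t v) :
    ‖t.2.2‖ ^ 2 = s * B' v := by
  rw [norm_sq_real _ h.2.2, int_sg]
  rfl

theorem Rep.G {s : ℝ≥0} {t : Trip W (sg s)} {v : E 3 → ℝ} (h : Rep t v) : ‖t.2.1‖ ^ 2 = G' v := by
  rw [← real_inner_self_eq_norm_sq, L2.inner_def]
  apply integral_congr_ae
  filter_upwards [h.2.1] with x hx
  rw [hx, real_inner_self_eq_norm_sq, gradient, LinearIsometryEquiv.norm_map]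

theorem Rep.smooth {s : ℝ≥0} {t : Trip W (sg s)} {v : E 3 → ℝ} (h : Rep t v)
    (hv : ContDiff ℝ 1 v) : IsSmooth t := ⟨v, hv, h.1, h.2.1, h.2.2⟩

theorem Rep.bf {s : ℝ≥0} {t : Trip W (sg s)} {v : E 3 → ℝ} (h : Rep t v) (α : ℝ) :
    bf α t t = G' v + α * s * B' v := by
  unfold GapDecreases.bf
  rw [real_inner_self_eq_norm_sq, real_inner_self_eq_norm_sq, h.G, h.B]
  ring

theorem Rep.comb {s : ℝ≥0} {t r : Trip W (sg s)} {v w : E 3 → ℝ} (ht : Rep t v) (hr : Rep r w)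
    (hv : ContDiff ℝ 1 v) (hw : ContDiff ℝ 1 w) (a b : ℝ) :
    Rep (a • t + b • r) (a • v + b • w) := by
  have hg : ∀ x, gradient (a • v + b • w) x = a • gradient v x + b • gradient w x := by
    intro x
    unfold gradient
    rw [fderiv_comb hv hw, map_add, map_smul, map_smul]
  refine ⟨?_, ?_, ?_⟩
  · simp only [Prod.fst_add, Prod.smul_fst]
    filter_upwards [ht.1, hr.1, Lp.coeFn_add (a • t.1) (b • r.1), Lp.coeFn_smul a t.1,
      Lp.coeFn_smul b r.1] with x h1 h2 h3 h4 h5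
    rw [h3, Pi.add_apply, h4, h5]
    simp [h1, h2]
  · simp only [Prod.fst_add, Prod.smul_fst, Prod.snd_add, Prod.smul_snd]
    filter_upwards [ht.2.1, hr.2.1, Lp.coeFn_add (a • t.2.1) (b • r.2.1), Lp.coeFn_smul a t.2.1,
      Lp.coeFn_smul b r.2.1] with x h1 h2 h3 h4 h5
    rw [h3, Pi.add_apply, h4, h5, hg]
    simp [h1, h2]
  · simp only [Prod.smul_snd, Prod.snd_add]
    filter_upwards [ht.2.2, hr.2.2, Lp.coeFn_add (a • t.2.2) (b • r.2.2), Lp.coeFn_smul a t.2.2,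
      Lp.coeFn_smul b r.2.2] with x h1 h2 h3 h4 h5
    rw [h3, Pi.add_apply, h4, h5]
    simp [h1, h2]

theorem exists_rep (s : ℝ≥0) {v : E 3 → ℝ} (hv : ContDiff ℝ 1 v) :
    ∃ t : Trip W (sg s), Rep t v := by
  have c1 := hv.continuous
  have c2 : Continuous (gradient v) := by
    unfold gradient
    exact (LinearIsometryEquiv.continuous _).comp (hv.continuous_fderiv (by norm_num))
  have m1 : MemLp v 2 (volume.restrict W) := by
    rw [memLp_two_iff_integrable_sq c1.aestronglyMeasurable]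
    exact integrableOn_Om hA (c1.pow 2)
  have m2 : MemLp (gradient v) 2 (volume.restrict W) := by
    rw [memLp_two_iff_integrable_sq_norm c2.aestronglyMeasurable]
    exact integrableOn_Om hA (c2.norm.pow 2)
  have m3 : MemLp v 2 ((sg s).restrict (frontier W)) := by
    rw [restrict_sg, memLp_two_iff_integrable_sq c1.aestronglyMeasurable]
    have := integrable_frontier hA (frontier_finite hA) (c1.pow 2)
    exact Integrable.smul_measure_nnreal this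
  exact ⟨(m1.toLp v, m2.toLp _, m3.toLp v), m1.coeFn_toLp, m2.coeFn_toLp, m3.coeFn_toLp⟩

theorem smooth_rep {s : ℝ≥0} {t : Trip W (sg s)} (h : IsSmooth t) :
    ∃ v, ContDiff ℝ 1 v ∧ Rep t v := by
  obtain ⟨v, hv, h1⟩ := h
  exact ⟨v, hv, h1⟩

/-- a lower bound for the form on `C¹` functions holds on `H¹` -/
theorem H1_lower {s : ℝ≥0} {α L : ℝ} (hL : ∀ v : E 3 → ℝ, ContDiff ℝ 1 v →
    L * N' v ≤ G' v + α * s * B' v) {w : Trip W (sg s)} (hw : w ∈ H1 W (sg s)) :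
    L * ‖w.1‖ ^ 2 ≤ bf α w w := by
  have hcl : IsClosed {w : Trip W (sg s) | L * ‖w.1‖ ^ 2 ≤ bf α w w} := by
    have c1 : Continuous fun w : Trip W (sg s) => L * ‖w.1‖ ^ 2 := by fun_prop
    have c2 : Continuous fun w : Trip W (sg s) => bf α w w := by
      unfold bf
      fun_prop
    exact isClosed_le c1 c2
  have hsub : {w : Trip W (sg s) | IsSmooth w} ⊆ {w : Trip W (sg s) | L * ‖w.1‖ ^ 2 ≤ bf α w w} := by
    intro t ht
    obtain ⟨v, hv, hr⟩ := smooth_rep ht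
    change L * ‖t.1‖ ^ 2 ≤ bf α t t
    rw [hr.N, hr.bf]
    exact hL v hv
  exact closure_minimal hsub hcl hw

theorem cd_comb {f g : E 3 → ℝ} (hf : ContDiff ℝ 1 f) (hg : ContDiff ℝ 1 g) (a b : ℝ) :
    ContDiff ℝ 1 (a • f + b • g) := (hf.const_smul a).add (hg.const_smul b)

/-- every two-dimensional family in `H¹` contains a direction with large gradient energy -/
theorem H1_two {s : ℝ≥0} {M : ℝ} (hM : ∀ v : E 3 → ℝ, ContDiff ℝ 1 v →
    ell (1 / 1000) (1 / 10 ^ 5) (1 / 10 ^ 7) (1 / 10 ^ 22) v = 0 → M * N' v ≤ G' v)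
    {p q : Trip W (sg s)} (hp : p ∈ H1 W (sg s)) (hq : q ∈ H1 W (sg s)) :
    ∃ z : ℝ × ℝ, ‖z‖ = 1 ∧ M * ‖(z.1 • p + z.2 • q).1‖ ^ 2 ≤ ‖(z.1 • p + z.2 • q).2.1‖ ^ 2 := by
  obtain ⟨a, ha, hal⟩ := mem_closure_iff_seq_limit.1 hp
  obtain ⟨b, hb, hbl⟩ := mem_closure_iff_seq_limit.1 hq
  have h1 : ∀ k, ∃ z : ℝ × ℝ, ‖z‖ = 1 ∧
      M * ‖(z.1 • a k + z.2 • b k).1‖ ^ 2 ≤ ‖(z.1 • a k + z.2 • b k).2.1‖ ^ 2 := by
    intro k
    obtain ⟨f, hf, hrf⟩ := smooth_rep (ha k)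
    obtain ⟨g, hg, hrg⟩ := smooth_rep (hb k)
    have h2 : ∃ z : ℝ × ℝ, z ≠ 0 ∧
        z.1 * ell (1 / 1000) (1 / 10 ^ 5) (1 / 10 ^ 7) (1 / 10 ^ 22) f
        + z.2 * ell (1 / 1000) (1 / 10 ^ 5) (1 / 10 ^ 7) (1 / 10 ^ 22) g = 0 := by
      by_cases h0 : ell (1 / 1000) (1 / 10 ^ 5) (1 / 10 ^ 7) (1 / 10 ^ 22) f = 0
      · exact ⟨(1, 0), by simp, by rw [h0]; simp⟩
      · refine ⟨(ell (1 / 1000) (1 / 10 ^ 5) (1 / 10 ^ 7) (1 / 10 ^ 22) g,
          -ell (1 / 1000) (1 / 10 ^ 5) (1 / 10 ^ 7) (1 / 10 ^ 22) f), ?_, by ring⟩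
        intro e
        apply h0
        have := congrArg Prod.snd e
        simpa using this
    obtain ⟨z, hz0, hz⟩ := h2
    have hn : 0 < ‖z‖ := norm_pos_iff.2 hz0
    refine ⟨‖z‖⁻¹ • z, by rw [norm_smul, norm_inv, norm_norm, inv_mul_cancel₀ hn.ne'], ?_⟩
    have hr := hrf.comb hrg hf hg (‖z‖⁻¹ • z).1 (‖z‖⁻¹ • z).2
    have hcd : ContDiff ℝ 1 ((‖z‖⁻¹ • z).1 • f + (‖z‖⁻¹ • z).2 • g) := cd_comb hf hg _ _
    rw [hr.N, hr.G]
    refine hM _ hcd ?_
    rw [ell_comb hf hg]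
    simp only [Prod.smul_fst, Prod.smul_snd, smul_eq_mul]
    have : ‖z‖⁻¹ * z.1 * ell (1 / 1000) (1 / 10 ^ 5) (1 / 10 ^ 7) (1 / 10 ^ 22) f
        + ‖z‖⁻¹ * z.2 * ell (1 / 1000) (1 / 10 ^ 5) (1 / 10 ^ 7) (1 / 10 ^ 22) g
        = ‖z‖⁻¹ * (z.1 * ell (1 / 1000) (1 / 10 ^ 5) (1 / 10 ^ 7) (1 / 10 ^ 22) f
        + z.2 * ell (1 / 1000) (1 / 10 ^ 5) (1 / 10 ^ 7) (1 / 10 ^ 22) g) := by ring
    rw [this, hz, mul_zero]
  choose z hz1 hz2 using h1
  have hmem : ∀ k, z k ∈ Metric.sphere (0 : ℝ × ℝ) 1 := fun k => by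
    rw [mem_sphere_zero_iff_norm]
    exact hz1 k
  obtain ⟨y, hy, φ, hφ, hlim⟩ := (isCompact_sphere (0 : ℝ × ℝ) 1).tendsto_subseq hmem
  refine ⟨y, mem_sphere_zero_iff_norm.1 hy, ?_⟩
  have l1 : Tendsto (fun k => (z (φ k)).1) atTop (𝓝 y.1) :=
    (continuous_fst.tendsto y).comp hlim
  have l2 : Tendsto (fun k => (z (φ k)).2) atTop (𝓝 y.2) :=
    (continuous_snd.tendsto y).comp hlim
  have l3 : Tendsto (fun k => a (φ k)) atTop (𝓝 p) := hal.comp hφ.tendsto_atTop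
  have l4 : Tendsto (fun k => b (φ k)) atTop (𝓝 q) := hbl.comp hφ.tendsto_atTop
  have l5 : Tendsto (fun k => (z (φ k)).1 • a (φ k) + (z (φ k)).2 • b (φ k)) atTop
      (𝓝 (y.1 • p + y.2 • q)) := (l1.smul l3).add (l2.smul l4)
  have c1 : Continuous fun w : Trip W (sg s) => M * ‖w.1‖ ^ 2 := by fun_prop
  have c2 : Continuous fun w : Trip W (sg s) => ‖w.2.1‖ ^ 2 := by fun_prop
  exact le_of_tendsto_of_tendsto' ((c1.tendsto _).comp l5) ((c2.tendsto _).comp l5)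
    fun k => hz2 (φ k)

/-! ### the estimates of the frozen proof -/

theorem est_upper {s β : ℝ} (hs : 0 < s) (hβ0 : 0 < β)
    (hβ : β * s * ((cH : NNReal) : ℝ) = 1 / 10 ^ 22 * (6 * 10 ^ 10)) (x y : ℝ) :
    G' (x • one3 + y • u3) + β * s * B' (x • one3 + y • u3)
      ≤ (2 * (6 * 10 ^ 10) + 12000 / 2 + (-77 / 100)) * N' (x • one3 + y • u3) :=
  test_upper (a := 6 * 10 ^ 10) (A := 12000) (B := 6)
    (U' := -77 / 100) (β := β * s) hA (by norm_num) (by norm_num) (by norm_num) (by norm_num)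
    (by norm_num) (by positivity) hβ (by norm_num) (by norm_num) x y

theorem est_lower {s β : ℝ} (hs : 0 < s) (hβ0 : 0 < β)
    (hβ : β * s * ((cH : NNReal) : ℝ) = 1 / 10 ^ 22 * (6 * 10 ^ 10)) (v : E 3 → ℝ)
    (hv : ContDiff ℝ 1 v) :
    (2 * (6 * 10 ^ 10) + 12000 / 2 - 261 / 100) * N' v ≤ G' v + β * s * B' v :=
  robin_L (η := 1 / 1000) (a := 6 * 10 ^ 10) (A := 12000) (B := 6)
    (D' := 998 / 1000) (Dq := 2 * 10 ^ 9) (err := 1 / 500) (θ := 12000 / 2 - 26 / 10)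
    hA hv (by norm_num) (by norm_num) (by norm_num) (by norm_num) (by norm_num) (by norm_num)
    (by norm_num) (by norm_num) (by norm_num) (by norm_num) (by norm_num) (by norm_num)
    (by norm_num) (by norm_num) (by norm_num) (by positivity) hβ

theorem est_M (v : E 3 → ℝ) (hv : ContDiff ℝ 1 v)
    (hl : ell (1 / 1000) (1 / 10 ^ 5) (1 / 10 ^ 7) (1 / 10 ^ 22) v = 0) :
    199 / 100 * N' v ≤ G' v :=
  robin_M (η := 1 / 1000) hA hv (by norm_num) (by norm_num)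
    (by norm_num) (by norm_num) (by norm_num) (by norm_num) (by norm_num) (by norm_num) hl

/-! ### from functions to triples -/

theorem Rep.ss1 {s : ℝ≥0} {t : Trip W (sg s)} {v : E 3 → ℝ} (h : Rep t v)
    (hv : ContDiff ℝ 1 v) : t ∈ SS1 W (sg s) := by
  refine ⟨v, gradient v, v, ⟨(Lp.memLp t.1).ae_eq h.1, (Lp.memLp t.2.1).ae_eq h.2.1,
    (Lp.memLp t.2.2).ae_eq h.2.2, fun _ => v, fun _ => hv, ?_, ?_, ?_⟩, h⟩ <;> simp

theorem norm_tendsto {F : Type*} [NormedAddCommGroup F] {a : ℕ → F} {b : F}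
    (h : Tendsto (fun k => ‖a k - b‖ ^ 2) atTop (𝓝 0)) : Tendsto a atTop (𝓝 b) := by
  rw [tendsto_iff_norm_sub_tendsto_zero]
  have h1 := (Real.continuous_sqrt.tendsto 0).comp h
  rw [Real.sqrt_zero] at h1
  refine h1.congr fun k => ?_
  exact Real.sqrt_sq (norm_nonneg _)

theorem norm_sq_sub {F : Type*} [NormedAddCommGroup F] [InnerProductSpace ℝ F]
    {μ : Measure (E 3)} (f g : Lp F 2 μ) {v w : E 3 → F}
    (hf : (f : E 3 → F) =ᵐ[μ] v) (hg : (g : E 3 → F) =ᵐ[μ] w) :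
    ‖f - g‖ ^ 2 = ∫ x, ‖v x - w x‖ ^ 2 ∂μ := by
  rw [← real_inner_self_eq_norm_sq, L2.inner_def]
  apply integral_congr_ae
  filter_upwards [hf, hg, Lp.coeFn_sub f g] with x h1 h2 h3
  rw [h3, Pi.sub_apply, h1, h2, real_inner_self_eq_norm_sq]

theorem SS1_sub {s : ℝ≥0} : SS1 W (sg s) ⊆ H1 W (sg s) := by
  rintro t ⟨u, g, τ, ⟨m1, m2, m3, v, hv, l1, l2, l3⟩, ht⟩
  choose r hr using fun k => exists_rep s (hv k)
  refine mem_closure_of_tendsto (f := r) (b := atTop) ?_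
    (Eventually.of_forall fun k => (hr k).smooth (hv k))
  have e1 : Tendsto (fun k => (r k).1) atTop (𝓝 t.1) := by
    apply norm_tendsto
    refine l1.congr fun k => ?_
    rw [norm_sq_sub _ _ (hr k).1 ht.1]
    apply integral_congr_ae
    filter_upwards with x
    rw [Real.norm_eq_abs, sq_abs]
  have e2 : Tendsto (fun k => (r k).2.1) atTop (𝓝 t.2.1) := by
    apply norm_tendsto
    refine l2.congr fun k => ?_
    rw [norm_sq_sub _ _ (hr k).2.1 ht.2.1]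
  have e3 : Tendsto (fun k => (r k).2.2) atTop (𝓝 t.2.2) := by
    apply norm_tendsto
    refine l3.congr fun k => ?_
    rw [norm_sq_sub _ _ (hr k).2.2 ht.2.2]
    apply integral_congr_ae
    filter_upwards with x
    rw [Real.norm_eq_abs, sq_abs]
  exact e1.prodMk_nhds (e2.prodMk_nhds e3)

theorem inner_int {F : Type*} [NormedAddCommGroup F] [InnerProductSpace ℝ F]
    {μ : Measure (E 3)} (f g : Lp F 2 μ) {v w : E 3 → F}
    (hf : (f : E 3 → F) =ᵐ[μ] v) (hg : (g : E 3 → F) =ᵐ[μ] w) :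
    ⟪f, g⟫ = ∫ x, ⟪v x, w x⟫ ∂μ := by
  rw [L2.inner_def]
  apply integral_congr_ae
  filter_upwards [hf, hg] with x h1 h2
  rw [h1, h2]

theorem inner_int_real {μ : Measure (E 3)} (f g : Lp ℝ 2 μ) {v w : E 3 → ℝ}
    (hf : (f : E 3 → ℝ) =ᵐ[μ] v) (hg : (g : E 3 → ℝ) =ᵐ[μ] w) :
    ⟪f, g⟫ = ∫ x, v x * w x ∂μ := by
  rw [inner_int f g hf hg]
  apply integral_congr_ae
  filter_upwards with x
  simp only [RCLike.inner_apply, conj_trivial]
  ring

/-- the spectrum in terms of triples -/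
theorem spec_trip {s : ℝ≥0} {α : ℝ} {lam : ℕ → ℝ} (h : IsRobinSpectrum W (sg s) α lam) :
    Monotone lam ∧ ∃ u : ℕ → Trip W (sg s), (∀ k, u k ∈ SS1 W (sg s)) ∧
      Orthonormal ℝ (fun k => (u k).1) ∧
      (⊤ ≤ (Submodule.span ℝ (range fun k => (u k).1)).topologicalClosure) ∧
      ∀ k, ∀ w ∈ SS1 W (sg s), bf α (u k) w = lam k * ⟪(u k).1, w.1⟫ := by
  obtain ⟨hm, u, g, τ, ⟨ho, hc⟩, he⟩ := h
  refine ⟨hm, fun k => ((he k).1.1.toLp (u k), (he k).1.2.1.toLp (g k),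
    (he k).1.2.2.1.toLp (τ k)), ?_, ?_, ?_, ?_⟩
  · intro k
    exact ⟨u k, g k, τ k, (he k).1, (he k).1.1.coeFn_toLp, (he k).1.2.1.coeFn_toLp,
      (he k).1.2.2.1.coeFn_toLp⟩
  · rw [orthonormal_iff_ite]
    intro j k
    rw [inner_int_real _ _ (he j).1.1.coeFn_toLp (he k).1.1.coeFn_toLp]
    exact ho j k
  · rw [top_le_iff, Submodule.topologicalClosure_eq_top_iff, eq_bot_iff]
    intro f hf
    rw [Submodule.mem_orthogonal] at hf
    have h1 : ∀ k, ∫ x in W, (f : E 3 → ℝ) x * u k x = 0 := by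
      intro k
      have := hf _ (Submodule.subset_span ⟨k, rfl⟩)
      rw [real_inner_comm] at this
      rw [← inner_int_real f _ (Eventually.of_forall fun _ => rfl) (he k).1.1.coeFn_toLp]
      exact this
    have h2 := hc _ (Lp.memLp f) h1
    rw [Submodule.mem_bot]
    exact (Lp.eq_zero_iff_ae_eq_zero).2 h2
  · rintro k w ⟨v, h, ρ, hvh, hw⟩
    have := (he k).2 v h ρ hvh
    unfold bf
    rw [inner_int _ _ (he k).1.2.1.coeFn_toLp hw.2.1,
      inner_int_real _ _ (he k).1.2.2.1.coeFn_toLp hw.2.2,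
      inner_int_real _ _ (he k).1.1.coeFn_toLp hw.1]
    exact this

/-! ### the four eigenvalue bounds for the literal eigenvalues -/

theorem spec_lower_one {s : ℝ≥0} {α L : ℝ} (hL : ∀ v : E 3 → ℝ, ContDiff ℝ 1 v →
    L * N' v ≤ G' v + α * s * B' v) {lam : ℕ → ℝ} (h : IsRobinSpectrum W (sg s) α lam) :
    L ≤ lam 0 := by
  obtain ⟨hm, u, hu, ho, hd, he⟩ := spec_trip h
  have h1 := H1_lower hL (SS1_sub (hu 0))
  have h2 : ‖(u 0).1‖ = 1 := ho.1 0
  have h3 : bf α (u 0) (u 0) = lam 0 * ⟪(u 0).1, (u 0).1⟫ := he 0 _ (hu 0)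
  rw [real_inner_self_eq_norm_sq, h2] at h3
  rw [h2, h3] at h1
  linarith

theorem spec_upper_one {s : ℝ≥0} {α : ℝ} (hα : 0 ≤ α) {lam : ℕ → ℝ}
    (h : IsRobinSpectrum W (sg s) α lam) : lam 0 ≤ α * s * (B' one3 / N' one3) := by
  obtain ⟨hm, u, hu, ho, hd, he⟩ := spec_trip h
  obtain ⟨t, ht⟩ := exists_rep s contDiff_one3
  have h1 := eig_lower hα hm hu ho hd he (ht.ss1 contDiff_one3) 0
    (fun k hk => absurd hk (by omega))
  have hG : G' one3 = 0 := Gf_one3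
  rw [ht.N, ht.bf, hG] at h1
  have hN : 0 < N' one3 := Nf_one3_pos hA
  rw [← mul_div_assoc, le_div_iff₀ hN]
  linarith

theorem spec_upper_two {s : ℝ≥0} {α U : ℝ} (hα : 0 ≤ α) (hU : ∀ x y : ℝ,
    G' (x • one3 + y • u3) + α * s * B' (x • one3 + y • u3) ≤ U * N' (x • one3 + y • u3))
    {lam : ℕ → ℝ} (h : IsRobinSpectrum W (sg s) α lam) : lam 1 ≤ U := by
  obtain ⟨hm, u, hu, ho, hd, he⟩ := spec_trip h
  obtain ⟨t, ht⟩ := exists_rep s contDiff_one3
  obtain ⟨r, hr⟩ := exists_rep s contDiff_u3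
  have h2 : ∃ x y : ℝ, (x ≠ 0 ∨ y ≠ 0) ∧ x * ⟪(u 0).1, t.1⟫ + y * ⟪(u 0).1, r.1⟫ = 0 := by
    by_cases h0 : ⟪(u 0).1, t.1⟫ = 0
    · exact ⟨1, 0, Or.inl one_ne_zero, by rw [h0]; simp⟩
    · exact ⟨⟪(u 0).1, r.1⟫, -⟪(u 0).1, t.1⟫, Or.inr (neg_ne_zero.2 h0), by ring⟩
  obtain ⟨x, y, hxy, hz⟩ := h2
  have hc := ht.comb hr contDiff_one3 contDiff_u3 x y
  have hcd := cd_comb contDiff_one3 contDiff_u3 x y
  have h1 := eig_lower hα hm hu ho hd he (hc.ss1 hcd) 1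
    (fun k hk => by
      have : k = 0 := by omega
      subst this
      simp only [Prod.fst_add, Prod.smul_fst, inner_add_right, inner_smul_right]
      exact hz)
  rw [hc.N, hc.bf] at h1
  have hN : 0 < N' (x • one3 + y • u3) := by
    have e : N' (x • one3 + y • u3) = x ^ 2 * N' one3 + y ^ 2 * N' u3 := Nf_V2 hA x y
    have p1 : 0 < N' one3 := Nf_one3_pos hA
    have p2 : 0 < N' u3 := Nf_u3_pos hA
    rw [e]
    rcases hxy with hx | hy
    · have := mul_pos (pow_pos (abs_pos.2 hx) 2) p1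
      rw [sq_abs] at this
      have := mul_nonneg (sq_nonneg y) p2.le
      linarith
    · have := mul_pos (pow_pos (abs_pos.2 hy) 2) p2
      rw [sq_abs] at this
      have := mul_nonneg (sq_nonneg x) p1.le
      linarith
  have h3 := h1.trans (hU x y)
  exact le_of_mul_le_mul_right h3 hN

theorem spec_lower_two {s : ℝ≥0} {α M : ℝ} (hα : 0 ≤ α) (hM : ∀ v : E 3 → ℝ, ContDiff ℝ 1 v →
    ell (1 / 1000) (1 / 10 ^ 5) (1 / 10 ^ 7) (1 / 10 ^ 22) v = 0 → M * N' v ≤ G' v)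
    {lam : ℕ → ℝ} (h : IsRobinSpectrum W (sg s) α lam) : M ≤ lam 1 := by
  obtain ⟨hm, u, hu, ho, hd, he⟩ := spec_trip h
  obtain ⟨z, hz, hle⟩ := H1_two hM (SS1_sub (hu 0)) (SS1_sub (hu 1))
  have huu : ∀ j k, bf α (u j) (u k) = if j = k then lam j else 0 := by
    intro j k
    have e : bf α (u j) (u k) = lam j * ⟪(u j).1, (u k).1⟫ := he j (u k) (hu k)
    rw [e]
    have := orthonormal_iff_ite.1 ho j k
    rw [this]
    split_ifs <;> simp
  have e1 := bf_comb α (u 0) (u 1) z.1 z.2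
  rw [huu, huu, huu, if_pos rfl, if_pos rfl, if_neg (by norm_num)] at e1
  have n1 : ‖(z.1 • u 0 + z.2 • u 1).1‖ ^ 2 = z.1 ^ 2 + z.2 ^ 2 := by
    have h1 : ⟪(u 0).1, (u 0).1⟫ = (1 : ℝ) := by
      have := orthonormal_iff_ite.1 ho 0 0
      simpa using this
    have h2 : ⟪(u 1).1, (u 1).1⟫ = (1 : ℝ) := by
      have := orthonormal_iff_ite.1 ho 1 1
      simpa using this
    have h3 : ⟪(u 0).1, (u 1).1⟫ = (0 : ℝ) := by
      have := orthonormal_iff_ite.1 ho 0 1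
      simpa using this
    have h4 : ⟪(u 1).1, (u 0).1⟫ = (0 : ℝ) := by
      rw [real_inner_comm]; exact h3
    rw [← real_inner_self_eq_norm_sq]
    simp only [Prod.fst_add, Prod.smul_fst, inner_add_right, inner_add_left, inner_smul_right,
      real_inner_smul_left]
    rw [h1, h2, h3, h4]
    ring
  have n2 : ‖(z.1 • u 0 + z.2 • u 1).2.1‖ ^ 2 ≤ bf α (z.1 • u 0 + z.2 • u 1)
      (z.1 • u 0 + z.2 • u 1) := by
    unfold bf
    rw [real_inner_self_eq_norm_sq, real_inner_self_eq_norm_sq]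
    have := mul_nonneg hα (sq_nonneg ‖(z.1 • u 0 + z.2 • u 1).2.2‖)
    linarith
  have hpos : 0 < z.1 ^ 2 + z.2 ^ 2 := by
    by_contra hcon
    have a1 : z.1 ^ 2 = 0 := by nlinarith [sq_nonneg z.1, sq_nonneg z.2]
    have a2 : z.2 ^ 2 = 0 := by nlinarith [sq_nonneg z.1, sq_nonneg z.2]
    have : z = 0 := Prod.ext (pow_eq_zero_iff (by norm_num) |>.1 a1)
      (pow_eq_zero_iff (by norm_num) |>.1 a2)
    rw [this] at hz
    simp at hz
  rw [n1] at hle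
  have h01 : lam 0 ≤ lam 1 := hm (by norm_num)
  have h5 : M * (z.1 ^ 2 + z.2 ^ 2) ≤ lam 1 * (z.1 ^ 2 + z.2 ^ 2) := by
    have := mul_le_mul_of_nonneg_left h01 (sq_nonneg z.1)
    linarith
  exact le_of_mul_le_mul_right h5 hpos

/-! ### the min-max eigenvalues -/

theorem minmax_eq {s : ℝ≥0} (α : ℝ) (k : ℕ) : minmaxEig W (sg s) α k =
    sInf (Sset (1 / 1000) (1 / 10 ^ 5) (1 / 10 ^ 7) (1 / 10 ^ 22) (α * s) k) := by
  have e : ∀ v : E 3 → ℝ, rayleigh W (sg s) α v = (G' v + α * s * B' v) / N' v := by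
    intro v
    have e1 : ∫ x in frontier W, v x ^ 2 ∂(sg s) = s * B' v := int_sg s _
    unfold rayleigh
    rw [e1, ← mul_assoc]
    rfl
  unfold minmaxEig
  simp_rw [e]
  unfold Sset RQ IsTest
  simp only [and_assoc]
  rfl

end Concrete

open Pool.Agent.H93.Robin in
/-- **The Robin gap need not increase.** There is a bounded convex domain `Ω ⊂ ℝ³` such that, for
the surface measure equal to any positive multiple `s` of the `2`-dimensional Hausdorff measure,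
there are `0 < α₀ < β` with `G_Ω(β) < G_Ω(α)` for every `α ∈ [0, α₀]` (in particular the gap at
`β` is smaller than the Neumann gap), in both usual definitions of the eigenvalues. -/
theorem result : ∃ Ω : Set (E 3), IsOpen Ω ∧ Convex ℝ Ω ∧ Bornology.IsBounded Ω ∧ Ω.Nonempty ∧
    ∀ s : ℝ≥0, 0 < s → ∃ α₀ β : ℝ, 0 < α₀ ∧ α₀ < β ∧ ∀ α : ℝ, 0 ≤ α → α ≤ α₀ →
      ∀ a₁ a₂ b₁ b₂ : ℝ, FirstTwo Ω (s • (μH[(2:ℝ)] : Measure (E 3))) α a₁ a₂ →
        FirstTwo Ω (s • (μH[(2:ℝ)] : Measure (E 3))) β b₁ b₂ → b₂ - b₁ < a₂ - a₁ := by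
  refine ⟨W, isOpen_Om, convex_Om hA, isBounded_Om hA, nonempty_Om hA, ?_⟩
  intro s hs
  have hs' : (0:ℝ) < s := hs
  have hcH : 0 < ((cH : NNReal) : ℝ) := cH_pos
  set cc : ℝ := ((cH : NNReal) : ℝ) with hcc
  set β : ℝ := 1 / 10 ^ 22 * (6 * 10 ^ 10) / (s * cc) with hβd
  have hβ0 : 0 < β := by positivity
  have hβ : β * s * cc = 1 / 10 ^ 22 * (6 * 10 ^ 10) := by
    rw [hβd]; field_simp
  set C : ℝ := s * (B' one3 / N' one3) with hC
  have hC0 : 0 ≤ C := mul_nonneg hs'.le (div_nonneg (Bf_nonneg _) (Nf_nonneg _))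
  refine ⟨min (β / 2) (1 / 10 / (C + 1)), β, lt_min (by positivity) (by positivity),
    lt_of_le_of_lt (min_le_left _ _) (by linarith), ?_⟩
  intro α hα0 hαle a₁ a₂ b₁ b₂ ha hb
  have hαC : α * C ≤ 1 / 10 := by
    have h1 : α ≤ 1 / 10 / (C + 1) := hαle.trans (min_le_right _ _)
    have h2 : α * (C + 1) ≤ 1 / 10 := by
      rwa [le_div_iff₀ (by positivity)] at h1
    nlinarith
  have hβs : 0 ≤ β * s := by positivity
  have hαs : 0 ≤ α * s := by positivity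
  have eg : ∀ (a : ℝ) (k : ℕ), minmaxEig W (s • (μH[(2:ℝ)] : Measure (E 3))) a k =
      sInf (Sset (1 / 1000) (1 / 10 ^ 5) (1 / 10 ^ 7) (1 / 10 ^ 22) (a * s) k) :=
    fun a k => minmax_eq a k
  have hA1 : a₁ ≤ α * C := by
    rcases ha with ⟨h1, _⟩ | ⟨lam, hsp, h1, _⟩
    · rw [h1, eg]
      refine (lam_one_small hA hαs).trans (le_of_eq ?_)
      rw [hC, mul_assoc]
    · rw [h1]
      refine (spec_upper_one hα0 hsp).trans (le_of_eq ?_)
      rw [hC, mul_assoc]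
  have hA2 : 199 / 100 ≤ a₂ := by
    rcases ha with ⟨_, h1⟩ | ⟨lam, hsp, _, h1⟩
    · rw [h1, eg]
      apply le_csInf ⟨_, V2_mem hA (α * s)⟩
      apply Sset_two_lower hαs hA
      intro v hv hl
      exact est_M v hv hl
    · rw [h1]
      exact spec_lower_two (M := 199 / 100) hα0 (fun v hv hl => est_M v hv hl) hsp
  have hB1 : 2 * (6 * 10 ^ 10) + 12000 / 2 - 261 / 100 ≤ b₁ := by
    rcases hb with ⟨h1, _⟩ | ⟨lam, hsp, h1, _⟩
    · rw [h1, eg]
      apply le_csInf ⟨_, V1_mem hA (β * s)⟩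
      apply Sset_one_lower hA
      intro v hv
      exact est_lower hs' hβ0 hβ v hv
    · rw [h1]
      exact spec_lower_one (L := 2 * (6 * 10 ^ 10) + 12000 / 2 - 261 / 100)
        (fun v hv => est_lower hs' hβ0 hβ v hv) hsp
  have hB2 : b₂ ≤ 2 * (6 * 10 ^ 10) + 12000 / 2 + (-77 / 100) := by
    rcases hb with ⟨_, h1⟩ | ⟨lam, hsp, _, h1⟩
    · rw [h1, eg]
      refine csInf_le_of_le (Sset_bddBelow hβs 2) (V2_mem hA (β * s)) ?_
      apply Real.sSup_le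
      · rintro q ⟨v, hv, hv0, rfl⟩
        have hN := V2_pos hA hv hv0
        obtain ⟨x, y, rfl⟩ := mem_V2.1 hv
        rw [div_le_iff₀ hN]
        exact est_upper hs' hβ0 hβ x y
      · norm_num
    · rw [h1]
      exact spec_upper_two (U := 2 * (6 * 10 ^ 10) + 12000 / 2 + (-77 / 100)) hβ0.le
        (fun x y => est_upper hs' hβ0 hβ x y) hsp
  linarith

end Pool.Agent.Results.MP_223851_an.GapDecreases
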